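import Pool.Agent.X245.RM.RedPoly
import Pool.Agent.X245.RM.Mem
import Pool.Agent.H622R2.CoNP

/-!
# RESET is PSPACE-complete

`RESET` is the problem: given a Mealy automaton by its tables, is it reset? Here a Mealy automaton
is a `Mealy` (`Pool.Agent.X245.RM.Defs`): state set `Fin (n + 1)`, alphabet `Fin m`, a transition
map `δ` and an output map `out`. `Reset M` says that some word is synchronizing and that the map
`u ↦ q ∘ u` sends synchronizing words to synchronizing words for every state `q`.

`lang Reset` is the language of the encodings of the reset Mealy automata, an automaton being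
encoded by its table (`Mealy.code`), one row `[(q · a, q ∘ a) | a]` for every state `q`.
-/

namespace Pool.Agent.Results.MP_5adc07_lc.ResetPSPACEComplete

open Pool.Agent.NPC Pool.Agent.H623R2.PS Pool.Agent.X245.RM

/-- `RESET` is `PSPACE`-complete under polynomial-time many-one reductions. Hence it is in `NP` if
and only if `NP = PSPACE`, and in `P` if and only if `P = PSPACE`. -/
theorem result :
    PSPACEComplete (lang Reset) ∧
    (InNP (lang Reset) ↔ ∀ L, InPSPACE L → InNP L) ∧
    (InP (lang Reset) ↔ ∀ L, InPSPACE L → InP L) := by
  refine ⟨⟨member, hard⟩, ⟨fun h L hL => ?_, fun h => h _ member⟩,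
    ⟨fun h L hL => InP.of_reduces (hard L hL) h, fun h => h _ member⟩⟩
  exact Pool.Agent.H622R2.InNP.of_reduces (hard L hL) h

end Pool.Agent.Results.MP_5adc07_lc.ResetPSPACEComplete
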